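import Mathlib
import Pool.Agent.U18.UB.Stm

/-!
# Project UB, package POL: polar coordinates in the blocks

helper67. The lemmas `lintegral_pi_prod` and `pi_withDensity` are copied from
`Pool.Agent.Helper954.Hopf.PX`.
-/

set_option autoImplicit false

namespace Pool.Agent.U67.UB.POL

open MeasureTheory Set Filter Topology
open scoped ENNReal
open Pool.Agent.U18.UB

/-! ### norms are continuous -/

theorem nrm_zero {m : ℕ} {N : E m → ℝ} (hN : Nrm N) : N 0 = 0 := by
  have := hN.smul 0 0
  simpa using this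

theorem nrm_nonneg {m : ℕ} {N : E m → ℝ} (hN : Nrm N) (x : E m) : 0 ≤ N x := by
  by_cases h : x = 0
  · rw [h, nrm_zero hN]
  · exact (hN.pos x h).le

theorem nrm_cont {m : ℕ} {N : E m → ℝ} (hN : Nrm N) : Continuous N := by
  have hconv : ConvexOn ℝ univ N := by
    refine ⟨convex_univ, fun x _ y _ a b ha hb hab => ?_⟩
    have h := hN.add_le (a • x) (b • y)
    rw [hN.smul, hN.smul, abs_of_nonneg ha, abs_of_nonneg hb] at h
    simpa using h
  have := hconv.continuousOn isOpen_univ
  exact continuousOn_univ.1 this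

/-! ### one block -/

theorem scale_one {c : ℝ} (hc : 0 < c) {g : ℝ → ℝ≥0∞} (hg : Measurable g) :
    ∫⁻ t in Ioi (0 : ℝ), g t = ENNReal.ofReal c * ∫⁻ s in Ioi (0 : ℝ), g (c * s) := by
  have hG : Measurable ((Ioi (0 : ℝ)).indicator g) := hg.indicator measurableSet_Ioi
  have h1 : ∫⁻ s, (Ioi (0 : ℝ)).indicator g (c * s) =
      ENNReal.ofReal |c⁻¹| * ∫⁻ t, (Ioi (0 : ℝ)).indicator g t := by
    rw [← lintegral_map (f := (Ioi (0 : ℝ)).indicator g) (g := fun s => c * s) hG
      (measurable_const_mul c), Real.map_volume_mul_left hc.ne', lintegral_smul_measure,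
      smul_eq_mul]
  have h2 : ∀ s : ℝ, (Ioi (0 : ℝ)).indicator g (c * s) =
      (Ioi (0 : ℝ)).indicator (fun s => g (c * s)) s := by
    intro s
    by_cases h : 0 < s
    · rw [indicator_of_mem (mem_Ioi.2 (mul_pos hc h)), indicator_of_mem (mem_Ioi.2 h)]
    · rw [indicator_of_notMem, indicator_of_notMem]
      · simpa using h
      · simp only [mem_Ioi, not_lt] at h ⊢
        exact mul_nonpos_of_nonneg_of_nonpos hc.le h
  simp only [h2] at h1
  rw [lintegral_indicator measurableSet_Ioi, lintegral_indicator measurableSet_Ioi] at h1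
  rw [h1, ← mul_assoc, ← ENNReal.ofReal_mul hc.le, abs_of_pos (inv_pos.2 hc),
    mul_inv_cancel₀ hc.ne', ENNReal.ofReal_one, one_mul]

theorem scale_E {m : ℕ} {r : ℝ} (hr : 0 < r) {G : E m → ℝ≥0∞} (hG : Measurable G) :
    ∫⁻ z, G (r • z) = ENNReal.ofReal (r ^ m)⁻¹ * ∫⁻ x, G x := by
  rw [← lintegral_map (f := G) (g := fun z => r • z) hG (measurable_const_smul r),
    Measure.map_addHaar_smul _ hr.ne', lintegral_smul_measure, smul_eq_mul,
    finrank_euclideanSpace_fin, abs_of_pos (inv_pos.2 (pow_pos hr m))]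

theorem inner_one {m : ℕ} (hm : 1 ≤ m) {a : ℝ} (ha : 0 < a) :
    ∫⁻ s in Ioi (0 : ℝ), (Ici a).indicator
      (fun s => (m : ℝ≥0∞) * ENNReal.ofReal (a ^ m * (s ^ (m + 1))⁻¹)) s = 1 := by
  have hm0 : (0 : ℝ) < m := by exact_mod_cast hm
  rw [lintegral_indicator measurableSet_Ici, Measure.restrict_restrict measurableSet_Ici,
    inter_eq_left.2 (show Ici a ⊆ Ioi 0 from fun s hs => lt_of_lt_of_le ha hs), ← restrict_Ioi_eq_restrict_Ici,
    lintegral_const_mul _ (by fun_prop)]
  have h1 : ∀ s ∈ Ioi a, a ^ m * (s ^ (m + 1))⁻¹ = a ^ m * s ^ (-(m + 1 : ℝ)) := by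
    intro s hs
    have hs0 : 0 < s := ha.trans hs
    rw [Real.rpow_neg hs0.le]
    congr 2
    rw [← Real.rpow_natCast]
    push_cast
    rfl
  have hlt : (-(m + 1 : ℝ)) < -1 := by linarith
  rw [setLIntegral_congr_fun measurableSet_Ioi (fun s hs => by rw [h1 s hs]),
    ← ofReal_integral_eq_lintegral_ofReal ((integrableOn_Ioi_rpow_of_lt hlt ha).const_mul _)
      (ae_restrict_of_forall_mem measurableSet_Ioi fun s hs => by
        have hs0 : 0 < s := ha.trans hs
        positivity),
    integral_const_mul, integral_Ioi_rpow_of_lt hlt ha, ← ENNReal.ofReal_natCast,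
    ← ENNReal.ofReal_mul hm0.le]
  have h2 : a ^ (-(m + 1 : ℝ) + 1) = (a ^ m)⁻¹ := by
    rw [show (-(m + 1 : ℝ) + 1) = -(m : ℝ) by ring, Real.rpow_neg ha.le, Real.rpow_natCast]
  rw [h2]
  have ha' : a ^ m ≠ 0 := (pow_pos ha m).ne'
  rw [show (m : ℝ) * (a ^ m * (-(a ^ m)⁻¹ / (-(m + 1 : ℝ) + 1))) = 1 by
    have : (-(m + 1 : ℝ) + 1) = -m := by ring
    rw [this]; field_simp]
  exact ENNReal.ofReal_one


theorem meas_map {m : ℕ} {N : E m → ℝ} (hN : Nrm N) :
    Measurable fun p : ℝ × E m => (p.1 / N p.2) • p.2 :=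
  (measurable_fst.div ((nrm_cont hN).measurable.comp measurable_snd)).smul measurable_snd

theorem one_block {m : ℕ} (hm : 1 ≤ m) {N : E m → ℝ} (hN : Nrm N) {F : E m → ℝ≥0∞}
    (hF : Measurable F) :
    ∫⁻ t in Ioi (0 : ℝ), ∫⁻ z in ball N,
      ((m : ℝ≥0∞) * ENNReal.ofReal (t ^ (m - 1))) * F ((t / N z) • z) = ∫⁻ x, F x := by
  have : Nonempty (Fin m) := ⟨⟨0, hm⟩⟩
  have hNm : Measurable N := (nrm_cont hN).measurable
  have hbm : MeasurableSet (ball N) := measurableSet_le hNm measurable_const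
  have hw : Measurable fun t : ℝ => (m : ℝ≥0∞) * ENNReal.ofReal (t ^ (m - 1)) := by fun_prop
  have hne : ∀ᵐ z : E m, z ≠ 0 := by
    rw [ae_iff]
    simp
  -- the substitution in `t`
  have h1 : ∀ z : E m, z ≠ 0 → ∫⁻ t in Ioi (0 : ℝ),
      ((m : ℝ≥0∞) * ENNReal.ofReal (t ^ (m - 1))) * F ((t / N z) • z) =
      ∫⁻ s in Ioi (0 : ℝ), ENNReal.ofReal (N z) *
        (((m : ℝ≥0∞) * ENNReal.ofReal ((N z * s) ^ (m - 1))) * F (s • z)) := by
    intro z hz
    have hz' := hN.pos z hz
    rw [scale_one hz' (g := fun t : ℝ => ((m : ℝ≥0∞) * ENNReal.ofReal (t ^ (m - 1))) *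
      F ((t / N z) • z)) (hw.mul (hF.comp ((measurable_id.div_const _).smul_const _))),
      ← lintegral_const_mul]
    · refine lintegral_congr fun s => ?_
      rw [mul_div_cancel_left₀ _ hz'.ne']
    · exact (hw.comp (measurable_const_mul _)).mul (hF.comp
        (((measurable_const_mul _).div_const _).smul_const _))
  have hH : Measurable fun p : ℝ × E m => ENNReal.ofReal (N p.2) *
      (((m : ℝ≥0∞) * ENNReal.ofReal ((N p.2 * p.1) ^ (m - 1))) * F (p.1 • p.2)) := by
    have h2 : Measurable fun p : ℝ × E m => N p.2 := hNm.comp measurable_snd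
    exact h2.ennreal_ofReal.mul ((hw.comp (h2.mul measurable_fst)).mul
      (hF.comp (measurable_fst.smul measurable_snd)))
  -- the substitution in `z`
  have h2 : ∀ s ∈ Ioi (0 : ℝ), ∫⁻ z in ball N, ENNReal.ofReal (N z) *
      (((m : ℝ≥0∞) * ENNReal.ofReal ((N z * s) ^ (m - 1))) * F (s • z)) =
      ∫⁻ x, ENNReal.ofReal (s ^ m)⁻¹ * {x : E m | N x ≤ s}.indicator
        (fun x => ENNReal.ofReal (N x / s) *
          (((m : ℝ≥0∞) * ENNReal.ofReal (N x ^ (m - 1))) * F x)) x := by
    intro s hs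
    have hs0 : 0 < s := hs
    have hG : Measurable ({x : E m | N x ≤ s}.indicator
        (fun x => ENNReal.ofReal (N x / s) *
          (((m : ℝ≥0∞) * ENNReal.ofReal (N x ^ (m - 1))) * F x))) :=
      ((hNm.div_const _).ennreal_ofReal.mul ((hw.comp hNm).mul hF)).indicator
        (measurableSet_le hNm measurable_const)
    rw [lintegral_const_mul _ hG, ← scale_E hs0 hG, ← lintegral_indicator hbm]
    refine lintegral_congr fun z => ?_
    have hNs : N (s • z) = s * N z := by rw [hN.smul, abs_of_pos hs0]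
    by_cases hz : N z ≤ 1
    · have hz1 : z ∈ ball N := hz
      have hz2 : s • z ∈ {x : E m | N x ≤ s} := by
        simp only [mem_ofPred_eq, hNs]
        nlinarith
      rw [indicator_of_mem hz1, indicator_of_mem hz2, hNs, mul_div_cancel_left₀ _ hs0.ne',
        mul_comm s (N z)]
    · have hz1 : z ∉ ball N := hz
      have hz2 : s • z ∉ {x : E m | N x ≤ s} := by
        simp only [mem_ofPred_eq, hNs]
        nlinarith
      rw [indicator_of_notMem hz1, indicator_of_notMem hz2]
  have hL : Measurable fun p : ℝ × E m => ENNReal.ofReal (p.1 ^ m)⁻¹ *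
      {x : E m | N x ≤ p.1}.indicator (fun x => ENNReal.ofReal (N x / p.1) *
          (((m : ℝ≥0∞) * ENNReal.ofReal (N x ^ (m - 1))) * F x)) p.2 := by
    have h3 : Measurable fun p : ℝ × E m => N p.2 := hNm.comp measurable_snd
    have h4 : Measurable ({p : ℝ × E m | N p.2 ≤ p.1}.indicator fun p : ℝ × E m =>
        ENNReal.ofReal (N p.2 / p.1) *
          (((m : ℝ≥0∞) * ENNReal.ofReal (N p.2 ^ (m - 1))) * F p.2)) :=
      ((h3.div measurable_fst).ennreal_ofReal.mul ((hw.comp h3).mul
        (hF.comp measurable_snd))).indicator (measurableSet_le h3 measurable_fst)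
    exact ((measurable_fst.pow_const m).inv.ennreal_ofReal).mul h4
  -- the integral over `s`
  have h3 : ∀ x : E m, x ≠ 0 → ∫⁻ s in Ioi (0 : ℝ), ENNReal.ofReal (s ^ m)⁻¹ *
      {x : E m | N x ≤ s}.indicator (fun x => ENNReal.ofReal (N x / s) *
          (((m : ℝ≥0∞) * ENNReal.ofReal (N x ^ (m - 1))) * F x)) x = F x := by
    intro x hx
    have hx' := hN.pos x hx
    have h4 : ∀ s ∈ Ioi (0 : ℝ), ENNReal.ofReal (s ^ m)⁻¹ *
      {x : E m | N x ≤ s}.indicator (fun x => ENNReal.ofReal (N x / s) *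
          (((m : ℝ≥0∞) * ENNReal.ofReal (N x ^ (m - 1))) * F x)) x =
        (Ici (N x)).indicator (fun s => (m : ℝ≥0∞) *
          ENNReal.ofReal (N x ^ m * (s ^ (m + 1))⁻¹)) s * F x := by
      intro s hs
      have hs0 : 0 < s := hs
      by_cases h : N x ≤ s
      · have h5 : x ∈ {x : E m | N x ≤ s} := h
        have h6 : s ∈ Ici (N x) := h
        rw [indicator_of_mem h5, indicator_of_mem h6]
        have h7 : ENNReal.ofReal (N x ^ m * (s ^ (m + 1))⁻¹) = ENNReal.ofReal (s ^ m)⁻¹ *
            (ENNReal.ofReal (N x / s) * ENNReal.ofReal (N x ^ (m - 1))) := by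
          rw [← ENNReal.ofReal_mul (by positivity), ← ENNReal.ofReal_mul (by positivity)]
          congr 1
          obtain ⟨q, rfl⟩ := Nat.exists_eq_add_of_le' hm
          rw [Nat.add_sub_cancel]
          field_simp
          ring
        rw [h7]
        ring
      · have h5 : x ∉ {x : E m | N x ≤ s} := h
        have h6 : s ∉ Ici (N x) := h
        rw [indicator_of_notMem h5, indicator_of_notMem h6, mul_zero, zero_mul]
    rw [setLIntegral_congr_fun measurableSet_Ioi h4, lintegral_mul_const, inner_one hm hx',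
      one_mul]
    exact ((measurable_const.mul (by fun_prop : Measurable fun s : ℝ =>
      ENNReal.ofReal (N x ^ m * (s ^ (m + 1))⁻¹)))).indicator measurableSet_Ici
  calc ∫⁻ t in Ioi (0 : ℝ), ∫⁻ z in ball N,
        ((m : ℝ≥0∞) * ENNReal.ofReal (t ^ (m - 1))) * F ((t / N z) • z)
      = ∫⁻ z in ball N, ∫⁻ t in Ioi (0 : ℝ),
        ((m : ℝ≥0∞) * ENNReal.ofReal (t ^ (m - 1))) * F ((t / N z) • z) :=
        lintegral_lintegral_swap ((hw.comp measurable_fst).mul
          (hF.comp (meas_map hN))).aemeasurable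
    _ = ∫⁻ z in ball N, ∫⁻ s in Ioi (0 : ℝ), ENNReal.ofReal (N z) *
        (((m : ℝ≥0∞) * ENNReal.ofReal ((N z * s) ^ (m - 1))) * F (s • z)) :=
        lintegral_congr_ae ((ae_restrict_of_ae hne).mono fun z hz => h1 z hz)
    _ = ∫⁻ s in Ioi (0 : ℝ), ∫⁻ z in ball N, ENNReal.ofReal (N z) *
        (((m : ℝ≥0∞) * ENNReal.ofReal ((N z * s) ^ (m - 1))) * F (s • z)) :=
        (lintegral_lintegral_swap hH.aemeasurable).symm
    _ = ∫⁻ s in Ioi (0 : ℝ), ∫⁻ x, ENNReal.ofReal (s ^ m)⁻¹ * {x : E m | N x ≤ s}.indicator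
        (fun x => ENNReal.ofReal (N x / s) *
          (((m : ℝ≥0∞) * ENNReal.ofReal (N x ^ (m - 1))) * F x)) x :=
        setLIntegral_congr_fun measurableSet_Ioi h2
    _ = ∫⁻ x, ∫⁻ s in Ioi (0 : ℝ), ENNReal.ofReal (s ^ m)⁻¹ * {x : E m | N x ≤ s}.indicator
        (fun x => ENNReal.ofReal (N x / s) *
          (((m : ℝ≥0∞) * ENNReal.ofReal (N x ^ (m - 1))) * F x)) x :=
        lintegral_lintegral_swap hL.aemeasurable
    _ = ∫⁻ x, F x := lintegral_congr_ae (hne.mono fun x hx => h3 x hx)

/-- the radial measure -/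
noncomputable def rho (m : ℕ) : Measure ℝ :=
  (volume.restrict (Ioi (0 : ℝ))).withDensity fun t => (m : ℝ≥0∞) * ENNReal.ofReal (t ^ (m - 1))

instance (m : ℕ) : SigmaFinite (rho m) :=
  SigmaFinite.withDensity_of_ne_top' fun t => by
    exact ENNReal.mul_ne_top (ENNReal.natCast_ne_top m) ENNReal.ofReal_ne_top

theorem map_block {m : ℕ} (hm : 1 ≤ m) {N : E m → ℝ} (hN : Nrm N) :
    ((rho m).prod (volume.restrict (ball N))).map (fun p : ℝ × E m => (p.1 / N p.2) • p.2) =
      volume := by
  ext s hs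
  have hF : Measurable (s.indicator (1 : E m → ℝ≥0∞)) := measurable_one.indicator hs
  have hw : Measurable fun t : ℝ => (m : ℝ≥0∞) * ENNReal.ofReal (t ^ (m - 1)) := by fun_prop
  have h1 : Measurable fun p : ℝ × E m => s.indicator (1 : E m → ℝ≥0∞) ((p.1 / N p.2) • p.2) :=
    hF.comp (meas_map hN)
  rw [← lintegral_indicator_one hs, ← lintegral_indicator_one hs,
    lintegral_map hF (meas_map hN), lintegral_prod _ h1.aemeasurable, rho,
    lintegral_withDensity_eq_lintegral_mul _ hw h1.lintegral_prod_right',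
    ← one_block hm hN hF]
  refine lintegral_congr fun t => ?_
  rw [Pi.mul_apply]
  exact (lintegral_const_mul _ (h1.comp (measurable_prodMk_left (x := t)))).symm

/-! ### several blocks -/

theorem lintegral_pi_prod {J : Type} [Fintype J] [DecidableEq J] {X : J → Type}
    [∀ j, MeasurableSpace (X j)] (μ : ∀ j, Measure (X j)) [∀ j, SigmaFinite (μ j)]
    (f : ∀ j, X j → ℝ≥0∞) (hf : ∀ j, Measurable (f j)) :
    ∫⁻ x, ∏ j, f j (x j) ∂Measure.pi μ = ∏ j, ∫⁻ x, f j x ∂μ j := by
  classical
  by_cases hne : Nonempty (∀ j, X j)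
  · obtain ⟨x0⟩ := hne
    have hm : Measurable (fun x : ∀ j, X j => ∏ j, f j (x j)) :=
      Finset.measurable_prod _ fun j _ => (hf j).comp (measurable_pi_apply j)
    have key : ∀ s : Finset J, ∀ x : ∀ j, X j,
        (∫⋯∫⁻_s, (fun x : ∀ j, X j => ∏ j, f j (x j)) ∂μ) x
          = (∏ j ∈ s, ∫⁻ y, f j y ∂μ j) * ∏ j ∈ sᶜ, f j (x j) := by
      intro s
      induction s using Finset.induction_on with
      | empty => intro x; rw [lmarginal_empty]; simp
      | insert i s hi ih =>
        intro x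
        rw [lmarginal_insert _ hm hi]
        simp only [ih]
        have hc : sᶜ = insert i (insert i s)ᶜ := by
          ext j
          by_cases hj : j = i
          · subst hj; simp [hi]
          · simp [hj]
        have hni : i ∉ (insert i s)ᶜ := by simp
        have h1 : ∀ y : X i, ∏ j ∈ sᶜ, f j (Function.update x i y j)
            = f i y * ∏ j ∈ (insert i s)ᶜ, f j (x j) := by
          intro y
          rw [hc, Finset.prod_insert hni, Function.update_self]
          congr 1
          apply Finset.prod_congr rfl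
          intro j hj
          have : j ≠ i := by
            rintro rfl; exact hni hj
          rw [Function.update_of_ne this]
        simp only [h1]
        have h2 : Measurable (fun y : X i => f i y * ∏ j ∈ (insert i s)ᶜ, f j (x j)) :=
          (hf i).mul_const _
        rw [lintegral_const_mul _ h2, lintegral_mul_const _ (hf i), Finset.prod_insert hi]
        ring
    have := key Finset.univ x0
    rw [← lintegral_eq_lmarginal_univ] at this
    rw [this]
    simp
  · rw [not_nonempty_iff] at hne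
    have h0 : ∃ j, IsEmpty (X j) := by
      by_contra hc
      push Not at hc
      apply hne.false
      exact fun j => (hc j).some
    obtain ⟨j, hj⟩ := h0
    have h1 : ∏ j, ∫⁻ x, f j x ∂μ j = 0 := by
      apply Finset.prod_eq_zero (Finset.mem_univ j)
      rw [lintegral_of_isEmpty]
    rw [h1, lintegral_of_isEmpty]

theorem pi_withDensity {J : Type} [Fintype J] [DecidableEq J] {X : J → Type}
    [∀ j, MeasurableSpace (X j)] (μ : ∀ j, Measure (X j)) [∀ j, SigmaFinite (μ j)]
    (f : ∀ j, X j → ℝ≥0∞) (hf : ∀ j, Measurable (f j)) (hft : ∀ j x, f j x ≠ ⊤) :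
    Measure.pi (fun j => (μ j).withDensity (f j)) =
      (Measure.pi μ).withDensity (fun x => ∏ j, f j (x j)) := by
  have : ∀ j, SigmaFinite ((μ j).withDensity (f j)) := fun j =>
    SigmaFinite.withDensity_of_ne_top' (hft j)
  refine (Measure.pi_eq fun s hs => ?_)
  rw [withDensity_apply _ (MeasurableSet.univ_pi hs), Measure.restrict_pi_pi,
    lintegral_pi_prod _ f hf]
  apply Finset.prod_congr rfl
  intro j _
  rw [withDensity_apply _ (hs j)]

/-- the rearrangement of a product of products -/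
theorem pi_prod {J : Type} [Fintype J] {X Y : J → Type} [∀ j, MeasurableSpace (X j)]
    [∀ j, MeasurableSpace (Y j)] (μ : ∀ j, Measure (X j)) (ν : ∀ j, Measure (Y j))
    [∀ j, SigmaFinite (μ j)] [∀ j, SigmaFinite (ν j)] :
    ((Measure.pi μ).prod (Measure.pi ν)).map
      (fun p : (∀ j, X j) × (∀ j, Y j) => fun j => (p.1 j, p.2 j)) =
      Measure.pi fun j => (μ j).prod (ν j) := by
  symm
  refine Measure.pi_eq_generateFrom
    (C := fun j => image2 (· ×ˢ ·) {s : Set (X j) | MeasurableSet s} {t : Set (Y j) | MeasurableSet t})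
    (fun j => generateFrom_prod) (fun j => isPiSystem_prod)
    (fun j => (μ j).toFiniteSpanningSetsIn.prod (ν j).toFiniteSpanningSetsIn) ?_
  intro s hs
  choose A hA B hB hAB using hs
  have hm : Measurable (fun p : (∀ j, X j) × (∀ j, Y j) => fun j => (p.1 j, p.2 j)) := by
    refine measurable_pi_lambda _ fun j => ?_
    exact ((measurable_pi_apply j).comp measurable_fst).prodMk
      ((measurable_pi_apply j).comp measurable_snd)
  have hs' : ∀ j, MeasurableSet (s j) := fun j => by
    rw [← hAB j]; exact (hA j).prod (hB j)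
  rw [Measure.map_apply hm (MeasurableSet.univ_pi hs')]
  have h1 : (fun p : (∀ j, X j) × (∀ j, Y j) => fun j => (p.1 j, p.2 j)) ⁻¹' (univ.pi s) =
      (univ.pi A) ×ˢ (univ.pi B) := by
    ext p
    simp only [mem_preimage, Set.mem_pi, mem_univ, true_implies, mem_prod, ← hAB]
    exact forall_and
  rw [h1, Measure.prod_prod, Measure.pi_pi, Measure.pi_pi, ← Finset.prod_mul_distrib]
  refine Finset.prod_congr rfl fun j _ => ?_
  rw [← hAB j, Measure.prod_prod]

theorem t_POL : S_POL := by
  intro b m N hm hN F hF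
  have hbm : ∀ i, MeasurableSet (ball (N i)) := fun i =>
    measurableSet_le (nrm_cont (hN i)).measurable measurable_const
  have hvol : (volume : Measure (∀ i, E (m i))) =
      (((Measure.pi fun i => rho (m i)).prod
        (Measure.pi fun i => (volume : Measure (E (m i))).restrict (ball (N i)))).map
        (fun p : (Fin b → ℝ) × (∀ i, E (m i)) => fun i => (p.1 i, p.2 i))).map
        (fun p i => ((p i).1 / N i (p i).2) • (p i).2) := by
    rw [pi_prod, volume_pi]
    have h1 : ∀ i, SigmaFinite (((rho (m i)).prod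
        ((volume : Measure (E (m i))).restrict (ball (N i)))).map
        (fun p : ℝ × E (m i) => (p.1 / N i p.2) • p.2)) := by
      intro i
      rw [map_block (hm i) (hN i)]
      infer_instance
    have h2 := Measure.pi_map_pi (μ := fun i => (rho (m i)).prod
        ((volume : Measure (E (m i))).restrict (ball (N i))))
      (f := fun i (p : ℝ × E (m i)) => (p.1 / N i p.2) • p.2)
      (fun i => (meas_map (hN i)).aemeasurable)
    rw [h2]
    congr 1
    funext i
    rw [map_block (hm i) (hN i)]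
  have hm1 : Measurable (fun p : (Fin b → ℝ) × (∀ i, E (m i)) => fun i => (p.1 i, p.2 i)) := by
    refine measurable_pi_lambda _ fun j => ?_
    exact ((measurable_pi_apply j).comp measurable_fst).prodMk
      ((measurable_pi_apply j).comp measurable_snd)
  have hm2 : Measurable (fun (p : ∀ i, ℝ × E (m i)) i => ((p i).1 / N i (p i).2) • (p i).2) :=
    measurable_pi_lambda _ fun j => (meas_map (hN j)).comp (measurable_pi_apply j)
  have hm3 : Measurable fun p : (Fin b → ℝ) × (∀ i, E (m i)) => Ph N p.1 p.2 :=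
    hm2.comp hm1
  have hpt : (univ.pi fun _ : Fin b => Ioi (0 : ℝ)) = {t : Fin b → ℝ | ∀ i, 0 < t i} := by
    ext t
    simp
  have hrho : (Measure.pi fun i => rho (m i)) =
      ((volume : Measure (Fin b → ℝ)).restrict {t : Fin b → ℝ | ∀ i, 0 < t i}).withDensity
        (fun t => ∏ i, ((m i : ℝ≥0∞) * ENNReal.ofReal (t i ^ (m i - 1)))) := by
    have h1 := pi_withDensity (fun _ : Fin b => (volume : Measure ℝ).restrict (Ioi (0 : ℝ)))
      (fun i t => (m i : ℝ≥0∞) * ENNReal.ofReal (t ^ (m i - 1))) (fun i => by fun_prop)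
      (fun i t => ENNReal.mul_ne_top (ENNReal.natCast_ne_top _) ENNReal.ofReal_ne_top)
    rw [← hpt, volume_pi, Measure.restrict_pi_pi]
    exact h1
  have hden : Measurable fun t : Fin b → ℝ =>
      ∏ i, ((m i : ℝ≥0∞) * ENNReal.ofReal (t i ^ (m i - 1))) := by fun_prop
  have hL : ∫⁻ x, F x = ∫⁻ p : (Fin b → ℝ) × (∀ i, E (m i)), F (Ph N p.1 p.2)
      ∂((Measure.pi fun i => rho (m i)).prod
        (Measure.pi fun i => (volume : Measure (E (m i))).restrict (ball (N i)))) := by
    conv_lhs => rw [hvol, Measure.map_map hm2 hm1]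
    exact lintegral_map hF (hm2.comp hm1)
  have hF3 : Measurable fun p : (Fin b → ℝ) × (∀ i, E (m i)) => F (Ph N p.1 p.2) := hF.comp hm3
  rw [hL, lintegral_prod _ hF3.aemeasurable, hrho,
    lintegral_withDensity_eq_lintegral_mul _ hden hF3.lintegral_prod_right',
    ← lintegral_const_mul']
  · have hts : MeasurableSet {t : Fin b → ℝ | ∀ i, 0 < t i} := by
      rw [← hpt]; exact MeasurableSet.univ_pi fun _ => measurableSet_Ioi
    refine setLIntegral_congr_fun hts fun t ht => ?_
    rw [Pi.mul_apply, ← Measure.restrict_pi_pi, ← volume_pi, Finset.prod_mul_distrib,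
      ENNReal.ofReal_prod_of_nonneg fun i _ => pow_nonneg (ht i).le _, mul_assoc]
  · exact ENNReal.prod_ne_top fun i _ => ENNReal.natCast_ne_top _

end Pool.Agent.U67.UB.POL
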